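import Mathlib
import Pool.Agent.Lib.QPR.TDist
import Pool.Agent.Lib.QPA.TMain
import Pool.Agent.Lib.QPA.THLip
import Pool.Agent.Lib.QPA.TCen

set_option autoImplicit false

/-!
# Quasi-periodic torus diffeomorphisms with Diophantine rotation vector: a dichotomy

Let `f` be a `C^∞` diffeomorphism of `T^d` (any `d`), conjugate by a homeomorphism `h` to the
translation by a Diophantine vector `α`. Then either `h` is a `C^∞` diffeomorphism (and the space of
`f`-invariant distributions has dimension one), or all of the following hold: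
(1) the set of the points `y` with `sup_{n ≥ 0} ‖D f^n (y)‖ < ∞` is meagre;
(2) for every point `y` the matrices `D f^n (y)`, `n ≥ 0`, leave every compact subset of `GL_d (ℝ)`;
(3) the set of the points `y` at which `h` is pointwise bi-Lipschitz is meagre;
(4) the set of the vectors `θ` for which `h⁻¹ ∘ (translation by θ) ∘ h` is Lipschitz is meagre.
In particular, if the derivatives `D f^n`, `n ≥ 0`, are bounded, or if `h` is bi-Lipschitz, then
`h` is a `C^∞` diffeomorphism.

Bounds on derivatives are expressed by pointwise Lipschitz constants: `‖D g (y)‖ < L` implies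
`dist (g z) (g y) ≤ L * dist z y` for `z` near `y`, which implies `‖D g (y)‖ ≤ L`.
-/

namespace Pool.Agent.Results.MP_e45e8e_an.BoundedDerivatives

open Filter Topology QPR

/-- **Theorem.** -/
theorem result :
    ∀ (d : ℕ) (α : Fin d → ℝ), IsDiophantine α →
      ∀ f h : UnitAddTorus (Fin d) ≃ₜ UnitAddTorus (Fin d),
        IsSmoothDiffeo f → Conjugates α h f →
        (IsSmoothDiffeo h ∧ OneInvariantDistribution f) ∨
        (IsMeagre {y | ∃ L : ℝ, ∀ n : ℕ, ∀ᶠ z in 𝓝 y,
            dist ((⇑f)^[n] z) ((⇑f)^[n] y) ≤ L * dist z y} ∧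
          (∀ (y : UnitAddTorus (Fin d)) (L : ℝ), ∃ n : ℕ, ∃ᶠ z in 𝓝 y,
            L * dist z y < dist ((⇑f)^[n] z) ((⇑f)^[n] y) ∨
            L * dist ((⇑f)^[n] z) ((⇑f)^[n] y) < dist z y) ∧
          IsMeagre {y | ∃ L : ℝ, ∀ᶠ z in 𝓝 y,
            dist (h z) (h y) ≤ L * dist z y ∧ dist z y ≤ L * dist (h z) (h y)} ∧
          IsMeagre {θ | ∃ L : ℝ, ∀ y z,
            dist (h.symm (h y + θ)) (h.symm (h z + θ)) ≤ L * dist y z}) := by
  intro d α hα f h hf hfh
  have hα' : DioV α := hα
  have hf1 : SmM f := fun φ hφ => (hf φ hφ).1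
  have hf2 : SmM f.symm := fun φ hφ => (hf φ hφ).2
  have hc : Conj α f h := hfh
  by_cases hs : SmM h ∧ SmM h.symm
  · exact Or.inl ⟨fun φ hφ => ⟨hs.1 φ hφ, hs.2 φ hφ⟩,
      oneInvariantDistribution_of_smooth hα' hc hs.1 hs.2⟩
  · refine Or.inr ⟨?_, ?_, ?_, ?_⟩
    · by_contra hm
      exact hs (smooth_torus hα' hc hf1 hf2 (Or.inl hm))
    · intro y L
      by_contra hm
      push Not at hm
      exact hs (smooth_torus hα' hc hf1 hf2 (Or.inr ⟨y, L, hm⟩))
    · by_contra hm
      exact hs (smooth_torus hα' hc hf1 hf2 (Or.inl (nonmeagre_of_h hα' hc hf1 hf2 hm)))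
    · by_contra hm
      obtain ⟨L, hL⟩ := lip_of_centraliser hα' hc hf1 hf2 hm
      refine hs (smooth_torus hα' hc hf1 hf2 (Or.inl ?_))
      have huniv : {y : UnitAddTorus (Fin d) | ∃ L : ℝ, ∀ n : ℕ, ∀ᶠ z in 𝓝 y,
          dist ((⇑f)^[n] z) ((⇑f)^[n] y) ≤ L * dist z y} = Set.univ :=
        Set.eq_univ_of_forall fun y => ⟨L, fun n => Eventually.of_forall fun z => hL n z y⟩
      rw [huniv]
      exact not_isMeagre_of_isOpen isOpen_univ ⟨0, trivial⟩

end Pool.Agent.Results.MP_e45e8e_an.BoundedDerivatives
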