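import Mathlib
import Pool.Agent.Lib.QPR.TDist
import Pool.Agent.Lib.QPA.TGrow
import Pool.Agent.Lib.QPA.TGrow2

set_option autoImplicit false

/-!
# Quasi-periodic torus diffeomorphisms: slow growth of the second derivatives implies linearisation

Let `f` be a `C^∞` diffeomorphism of `T^d` (any `d`), conjugate by a homeomorphism `h` to the
translation by a vector `α` with `|⟨k, α⟩ - n| ≥ γ / |k|₁^τ`, and `F` a lift of `f` to `ℝ^d`. Then either `h` is a
`C^∞` diffeomorphism (and the space of `f`-invariant distributions has dimension one), or the second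
derivatives of the iterates `F^n` grow at least polynomially, with an explicit exponent:
(1) `sup_x ‖D² F^n (x)‖ ≤ C (n+1)^κ` for all `n ≥ 0` fails for all `C` and all
    `κ ≤ 1 / (200 (d+2) (τ+2d+1))`;
(2) if `h⁻¹` is Hoelder with exponent `g > 0`, it fails for all `C` and all `κ < g / (τ+2d+1)`.
-/

namespace Pool.Agent.Results.MP_e45e8e_an.GrowthCriterion

open Filter Topology QPR

/-- **Theorem.** -/
theorem result :
    ∀ (d : ℕ) (α : Fin d → ℝ) (γ τ : ℝ), 0 < γ → 0 < τ →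
      (∀ k : Fin d → ℤ, k ≠ 0 → ∀ n : ℤ,
        γ / (∑ i, |(k i : ℝ)|) ^ τ ≤ |∑ i, (k i : ℝ) * α i - (n : ℝ)|) →
      ∀ f h : UnitAddTorus (Fin d) ≃ₜ UnitAddTorus (Fin d),
        IsSmoothDiffeo f → Conjugates α h f →
      ∀ F : (Fin d → ℝ) → (Fin d → ℝ), Continuous F →
        (∀ x i, ((F x i : ℝ) : UnitAddCircle) = f (fun j => ((x j : ℝ) : UnitAddCircle)) i) →
        (IsSmoothDiffeo h ∧ OneInvariantDistribution f) ∨
        ((∀ C κ : ℝ, κ * (200 * (d + 2) * (τ + 2 * d + 1)) ≤ 1 →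
            ∃ (n : ℕ) (x : Fin d → ℝ), C * ((n : ℝ) + 1) ^ κ < ‖iteratedFDeriv ℝ 2 (F^[n]) x‖) ∧
          (∀ C g κ : ℝ, 0 < g →
            (∀ y z, dist (h.symm y) (h.symm z) ≤ C * dist y z ^ g) →
            κ * (τ + 2 * d + 1) < g →
            ∃ (n : ℕ) (x : Fin d → ℝ),
              C * ((n : ℝ) + 1) ^ κ < ‖iteratedFDeriv ℝ 2 (F^[n]) x‖)) := by
  intro d α γ τ hγ hτ hα f h hf hfh F hF hl
  have hαE : DioE α γ τ := ⟨hγ, hτ, hα⟩
  have hf1 : SmM f := fun φ hφ => (hf φ hφ).1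
  have hf2 : SmM f.symm := fun φ hφ => (hf φ hφ).2
  have hc : Conj α f h := hfh
  have hl' : ∀ x, pr (F x) = f (pr x) := fun x => funext fun i => hl x i
  have hP : (0 : ℝ) < τ + 2 * d + 1 := by positivity
  have hmono : ∀ (C κ κ' : ℝ), κ ≤ κ' → ∀ k : ℕ,
      C * ((k : ℝ) + 1) ^ κ ≤ max C 0 * ((k : ℝ) + 1) ^ κ' := by
    intro C κ κ' hκ k
    have h1 : (1 : ℝ) ≤ (k : ℝ) + 1 := by
      have : (0 : ℝ) ≤ k := Nat.cast_nonneg k
      linarith
    have h2 : ((k : ℝ) + 1) ^ κ ≤ ((k : ℝ) + 1) ^ κ' := Real.rpow_le_rpow_of_exponent_le h1 hκ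
    have h3 : (0 : ℝ) ≤ ((k : ℝ) + 1) ^ κ := Real.rpow_nonneg (by linarith) _
    exact mul_le_mul (le_max_left _ _) h2 h3 (le_max_right _ _)
  by_cases hs : SmM h ∧ SmM h.symm
  · exact Or.inl ⟨fun φ hφ => ⟨hs.1 φ hφ, hs.2 φ hφ⟩,
      oneInvariantDistribution_of_smooth hαE.dioV hc hs.1 hs.2⟩
  · refine Or.inr ⟨?_, ?_⟩
    · intro C κ hκ
      by_contra hm
      push Not at hm
      have hQ : (0 : ℝ) < 200 * (d + 2) * (τ + 2 * d + 1) := by positivity
      refine hs (smooth_growth2 hαE hc hf1 hf2 (1 / (200 * (d + 2) * (τ + 2 * d + 1))) (max C 0)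
        (by positivity) (le_of_eq (by field_simp)) F hF hl' fun k x => ?_)
      exact (hm k x).trans (hmono C κ _ ((le_div_iff₀ hQ).2 hκ) k)
    · intro C g κ hg hH hκ
      by_contra hm
      push Not at hm
      refine hs (smooth_growth hαE hc hf1 hf2 g (max κ 0) (max C 0) hg (le_max_right _ _) ?_
        (fun y z => (hH y z).trans ?_) F hF hl' fun k x => ?_)
      · rcases le_total κ 0 with h0 | h0
        · rw [max_eq_right h0]; linarith
        · rw [max_eq_left h0]; exact hκ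
      · exact mul_le_mul_of_nonneg_right (le_max_left _ _) (Real.rpow_nonneg dist_nonneg _)
      · exact (hm k x).trans (hmono C κ _ (le_max_left _ _) k)

end Pool.Agent.Results.MP_e45e8e_an.GrowthCriterion
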