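import Pool.Agent.Lib.QPR.TFin
import Pool.Agent.Lib.QPR.TDist

/-!
# MP_e45e8e_an: towers of projective cocycles

Let `α ∈ ℝ^d` be Diophantine and `f` a homeomorphism of the torus `T^d` which is topologically
conjugate to the translation by `α` (`h (f y) = h y + α`). Suppose that `f` is triangular with Moebius
coordinate maps: `e (f x j) = (P_j e (x_j) + Q_j) / (conj Q_j e (x_j) + conj P_j)`, where
`e (t) = exp (2 π i t)` and `P_j`, `Q_j` are `C^∞` functions of the previous coordinates with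
`|Q_j| < |P_j|`. Then `h` is a `C^∞` diffeomorphism and the space of `f`-invariant distributions is
one-dimensional.
-/

namespace Pool.Agent.Results.MP_e45e8e_an.MoebiusTowers

open QPR

/-- normalisation of the coefficients. -/
theorem lev_zero {d : ℕ} {α : Fin d → ℝ} {f h : UnitAddTorus (Fin d) ≃ₜ UnitAddTorus (Fin d)}
    (hc : ∀ y, h (f y) = h y + (fun i => ((α i : ℝ) : UnitAddCircle)))
    (P Q : Fin d → UnitAddTorus (Fin d) → ℂ)
    (hP : ∀ j, SmT (P j)) (hQ : ∀ j, SmT (Q j))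
    (hdep : ∀ j, ∀ x x' : UnitAddTorus (Fin d), (∀ i < j, x i = x' i) →
      P j x = P j x' ∧ Q j x = Q j x')
    (hlt : ∀ j x, ‖Q j x‖ < ‖P j x‖)
    (hm : ∀ j x, ee (f x j) * (star (Q j x) * ee (x j) + star (P j x))
      = P j x * ee (x j) + Q j x) :
    ∃ P' Q' : Fin d → UnitAddTorus (Fin d) → ℂ, Lev 0 α f h (fun _ => 0) P' Q' := by
  set D : Fin d → UnitAddTorus (Fin d) → ℝ := fun j x =>
    (Real.sqrt (‖P j x‖ ^ 2 - ‖Q j x‖ ^ 2))⁻¹ with hD
  have hpos : ∀ j x, 0 < ‖P j x‖ ^ 2 - ‖Q j x‖ ^ 2 := by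
    intro j x
    have := hlt j x
    have h0 := norm_nonneg (Q j x)
    nlinarith
  have hDs : ∀ j, SmT (D j) := by
    intro j
    have h1 : ContDiff ℝ ((⊤ : ℕ∞) : WithTop ℕ∞)
        (fun x : Fin d → ℝ => ‖P j (pr x)‖ ^ 2 - ‖Q j (pr x)‖ ^ 2) := by
      exact ((hP j).norm_sq ℝ).sub ((hQ j).norm_sq ℝ)
    unfold SmT
    refine contDiff_iff_contDiffAt.2 fun x => ?_
    have h2 : ContDiffAt ℝ ((⊤ : ℕ∞) : WithTop ℕ∞)
        (fun x : Fin d → ℝ => Real.sqrt (‖P j (pr x)‖ ^ 2 - ‖Q j (pr x)‖ ^ 2)) x :=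
      h1.contDiffAt.sqrt (hpos j (pr x)).ne'
    exact h2.inv (Real.sqrt_pos.2 (hpos j (pr x))).ne'
  have hd1 : ∀ j, ∀ x x' : UnitAddTorus (Fin d), (∀ i < j, x i = x' i) → D j x = D j x' := by
    intro j x x' hx
    have := hdep j x x' hx
    simp only [hD, this.1, this.2]
  refine ⟨fun j x => (D j x : ℂ) * P j x, fun j x => (D j x : ℂ) * Q j x, ?_⟩
  have hsm : ∀ j (R : UnitAddTorus (Fin d) → ℂ), SmT R → SmT (fun x => (D j x : ℂ) * R x) := by
    intro j R hR
    have h3 : ContDiff ℝ ((⊤ : ℕ∞) : WithTop ℕ∞)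
        (fun x : Fin d → ℝ => ((D j (pr x) : ℝ) : ℂ)) :=
      Complex.ofRealCLM.contDiff.comp (hDs j)
    exact h3.mul hR
  refine ⟨fun y => hc y, fun i hi => absurd hi (Nat.not_lt_zero _), fun j _ => hsm j _ (hP j),
    fun j _ => hsm j _ (hQ j), ?_, ?_, ?_, ?_⟩
  · intro j _ x x' hx
    have hx' : ∀ i < j, x i = x' i := fun i hi => hx i hi
    simp only [hd1 j x x' hx', (hdep j x x' hx').1]
  · intro j _ x x' hx
    have hx' : ∀ i < j, x i = x' i := fun i hi => hx i hi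
    simp only [hd1 j x x' hx', (hdep j x x' hx').2]
  · intro j _ x
    have h4 : D j x ^ 2 * (‖P j x‖ ^ 2 - ‖Q j x‖ ^ 2) = 1 := by
      simp only [hD]
      rw [inv_pow, Real.sq_sqrt (hpos j x).le, inv_mul_cancel₀ (hpos j x).ne']
    simp only [norm_mul, Complex.norm_real, mul_pow, Real.norm_eq_abs, sq_abs]
    linarith
  · intro j _ x
    have h5 := hm j x
    simp only [star_mul', Complex.star_def, Complex.conj_ofReal] at h5 ⊢
    linear_combination (D j x : ℂ) * h5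

/-- **Theorem.** -/
theorem result :
    ∀ (d : ℕ) (α : Fin d → ℝ), IsDiophantine α →
      ∀ f h : UnitAddTorus (Fin d) ≃ₜ UnitAddTorus (Fin d), Conjugates α h f →
        ∀ P Q : Fin d → UnitAddTorus (Fin d) → ℂ,
          (∀ j, IsSmoothFun (P j)) → (∀ j, IsSmoothFun (Q j)) →
          (∀ j, ∀ x x' : UnitAddTorus (Fin d), (∀ i < j, x i = x' i) →
            P j x = P j x' ∧ Q j x = Q j x') →
          (∀ j x, ‖Q j x‖ < ‖P j x‖) →
          (∀ j x, (AddCircle.toCircle (f x j) : ℂ)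
              * (star (Q j x) * (AddCircle.toCircle (x j) : ℂ) + star (P j x))
            = P j x * (AddCircle.toCircle (x j) : ℂ) + Q j x) →
        IsSmoothDiffeo h ∧ OneInvariantDistribution f := by
  intro d α hα f h hfh P Q hP hQ hdep hlt hm
  obtain ⟨P', Q', L⟩ := lev_zero hfh P Q hP hQ hdep hlt hm
  have hα' : DioV α := hα
  obtain ⟨hs, hs'⟩ := smooth_of_lev hα' L
  exact ⟨fun φ hφ => ⟨hs φ hφ, hs' φ hφ⟩, oneInvariantDistribution_of_smooth hα' L.conj hs hs'⟩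

end Pool.Agent.Results.MP_e45e8e_an.MoebiusTowers
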